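import Mathlib

open Filter Topology MeasureTheory Set Real Metric
open scoped ENNReal

namespace Pool.Agent.H.MP_4a15bf_mp

abbrev E := EuclideanSpace ℝ (Fin 4)

/-- surface measure on the unit sphere `S³` -/
noncomputable def σ : Measure (sphere (0 : E) 1) := (volume : Measure E).toSphere

instance : IsFiniteMeasure σ := by unfold σ; infer_instance

noncomputable def χ (r : ℝ) : ℝ := (Iio (1 : ℝ)).indicator 1 r

lemma mH : Measurable χ := measurable_one.indicator measurableSet_Iio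

lemma step1 (G : ℝ → ℝ) : ∫ x : E, G (x 0 / ‖x‖) * χ ‖x‖ = (∫ x, G (x.1 0) ∂σ) * (1 / 4) := by
  have h := (volume : Measure E).measurePreserving_homeomorphUnitSphereProd.integral_comp
    (Homeomorph.measurableEmbedding _) (fun p => G (p.1.1 0) * χ p.2)
  rw [integral_prod_mul (fun x : sphere (0 : E) 1 => G (x.1 0)) fun r : Ioi (0 : ℝ) => χ r] at h
  have e : ∫ r : Ioi (0 : ℝ), χ r ∂(Measure.volumeIoiPow (Module.finrank ℝ E - 1)) = 1 / 4 := by
    have : (fun r : Ioi (0 : ℝ) => χ r) = (Iio (⟨1, mem_Ioi.2 one_pos⟩ : Ioi (0 : ℝ))).indicator 1 := by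
      ext r
      simp only [χ, indicator, mem_Iio, ← Subtype.coe_lt_coe, Pi.one_apply]
    rw [this, integral_indicator_one measurableSet_Iio, Measure.real,
      Measure.volumeIoiPow_apply_Iio]
    norm_num
  have e2 := integral_subtype_comap (μ := volume) (measurableSet_singleton (0 : E)).compl
    fun x : E => G (x 0 / ‖x‖) * χ ‖x‖
  rw [restrict_compl_singleton] at e2
  rw [← e, σ, ← h, ← e2]
  refine integral_congr_ae (.of_forall fun x => ?_)
  simp [div_eq_inv_mul]

lemma step2 (F : ℝ → ℝ → ℝ) : ∫ x : E, F (x 0) ‖x‖ =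
    ∫ p : ℝ × EuclideanSpace ℝ (Fin 3), F p.1 √(p.1 ^ 2 + ‖p.2‖ ^ 2) := by
  let e : E ≃ᵐ ℝ × EuclideanSpace ℝ (Fin 3) := (MeasurableEquiv.toLp 2 _).symm.trans
    ((MeasurableEquiv.piFinSuccAbove (fun _ : Fin 4 => ℝ) 0).trans
      ((MeasurableEquiv.refl ℝ).prodCongr (MeasurableEquiv.toLp 2 _)))
  have he : MeasurePreserving e := ((MeasurePreserving.id _).prod
    (PiLp.volume_preserving_toLp (Fin 3))).comp ((volume_preserving_piFinSuccAbove
      (fun _ : Fin 4 => ℝ) 0).comp (PiLp.volume_preserving_ofLp (Fin 4)))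
  rw [← he.integral_comp']
  refine integral_congr_ae (.of_forall fun x => ?_)
  have : ‖x‖ = √((e x).1 ^ 2 + ‖(e x).2‖ ^ 2) := by
    rw [EuclideanSpace.norm_eq, EuclideanSpace.norm_sq_eq, Fin.sum_univ_succ, norm_eq_abs, sq_abs]
    rfl
  simp only [← this]
  rfl

lemma zon0 : ∃ κ : ℝ, ∀ (G : ℝ → ℝ) (C : ℝ), Measurable G → (∀ z, |G z| ≤ C) →
    ∫ x, G (x.1 0) ∂σ = κ * ∫ φ in Ioo 0 π, sin φ ^ 2 * G (cos φ) := by
  refine ⟨4 * (3 * (volume : Measure (EuclideanSpace ℝ (Fin 3))).real (ball 0 1) *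
    ∫ r in Ioi (0 : ℝ), r ^ 3 * χ r), fun G C hG hC => ?_⟩
  have h1 := step1 G
  have hb : ∀ z ρ : ℝ, 0 ≤ ρ → ‖G (z / √(z ^ 2 + ρ ^ 2)) * χ √(z ^ 2 + ρ ^ 2)‖ ≤
      (Icc (-1 : ℝ) 1).indicator (fun _ => C) z * (Icc (0 : ℝ) 1).indicator 1 ρ := by
    intro z ρ hρ
    have hC0 : 0 ≤ C := (abs_nonneg _).trans (hC 0)
    by_cases h : √(z ^ 2 + ρ ^ 2) < 1
    · have h2 := (sqrt_lt' one_pos).1 h
      rw [indicator_of_mem (show z ∈ Icc (-1 : ℝ) 1 from ⟨by nlinarith, by nlinarith⟩),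
        indicator_of_mem (show ρ ∈ Icc (0 : ℝ) 1 from ⟨hρ, by nlinarith⟩)]
      simpa [χ, h] using hC _
    · simp only [χ, indicator_of_notMem (show _ ∉ Iio (1 : ℝ) from h), mul_zero, norm_zero]
      exact mul_nonneg (indicator_nonneg (fun _ _ => hC0) _) (indicator_nonneg (by simp) _)
  have hm : Measurable fun p : ℝ × ℝ => G (p.1 / √(p.1 ^ 2 + p.2 ^ 2)) * χ √(p.1 ^ 2 + p.2 ^ 2) :=
    (hG.comp (by fun_prop)).mul (mH.comp (by fun_prop))
  have hI : Integrable ((Icc (-1 : ℝ) 1).indicator fun _ => C) :=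
    (integrable_indicator_iff measurableSet_Icc).2 (by simp)
  rw [step2 fun a b => G (a / b) * χ b, Measure.volume_eq_prod, integral_prod] at h1
  swap
  · refine (hI.mul_prod (g := fun y : EuclideanSpace ℝ (Fin 3) => (Icc (0 : ℝ) 1).indicator 1 ‖y‖)
      ?_).mono' (hm.comp (f := fun p : ℝ × EuclideanSpace ℝ (Fin 3) => (p.1, ‖p.2‖))
      (by fun_prop)).aestronglyMeasurable (.of_forall fun p => hb _ _ (norm_nonneg _))
    have : (fun y : EuclideanSpace ℝ (Fin 3) => (Icc (0 : ℝ) 1).indicator (1 : ℝ → ℝ) ‖y‖) =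
        (closedBall 0 1).indicator 1 := by
      ext y; simp [indicator]
    rw [this]
    exact (integrable_indicator_iff measurableSet_closedBall).2
      (integrableOn_const (isCompact_closedBall _ _).measure_lt_top.ne)
  have h2 := fun z : ℝ => integral_fun_norm_addHaar (volume : Measure (EuclideanSpace ℝ (Fin 3)))
    fun ρ => G (z / √(z ^ 2 + ρ ^ 2)) * χ √(z ^ 2 + ρ ^ 2)
  simp only [h2, ← integral_indicator measurableSet_Ioi, finrank_euclideanSpace,
    Fintype.card_fin, nsmul_eq_mul, smul_eq_mul (_ : ℝ) (∫ _, _), integral_const_mul] at h1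
  rw [← integral_prod (fun p : ℝ × ℝ => (Ioi (0 : ℝ)).indicator (fun y => y ^ (3 - 1) •
    (G (p.1 / √(p.1 ^ 2 + y ^ 2)) * χ √(p.1 ^ 2 + y ^ 2))) p.2), ← Measure.volume_eq_prod,
    ← integral_comp_polarCoord_symm, polarCoord_target, setIntegral_congr_fun
    (measurableSet_Ioi.prod measurableSet_Ioo) (g := fun p => (p.1 ^ 3 * χ p.1) *
      (Ioo 0 π).indicator (fun φ => sin φ ^ 2 * G (cos φ)) p.2), Measure.volume_eq_prod,
    setIntegral_prod_mul (fun r : ℝ => r ^ 3 * χ r), setIntegral_indicator measurableSet_Ioo,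
    inter_eq_right.2 (Ioo_subset_Ioo_left (by linarith [pi_pos]))] at h1
  · simp only [Nat.cast_ofNat] at h1
    linear_combination -4 * h1
  · rintro ⟨r, φ⟩ ⟨hr : 0 < r, hφ⟩
    have e : √((r * cos φ) ^ 2 + (r * sin φ) ^ 2) = r := by
      rw [mul_pow, mul_pow, ← mul_add, cos_sq_add_sin_sq, mul_one, sqrt_sq hr.le]
    simp only [polarCoord_symm_apply, smul_eq_mul]
    by_cases h : φ ∈ Ioo 0 π
    · rw [indicator_of_mem h, indicator_of_mem (mem_Ioi.2 (mul_pos hr
        (sin_pos_of_pos_of_lt_pi h.1 h.2))), e, mul_div_cancel_left₀ _ hr.ne']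
      ring
    · rw [indicator_of_notMem h, indicator_of_notMem, mul_zero, mul_zero]
      exact not_lt.2 (mul_nonpos_of_nonneg_of_nonpos hr.le (sin_nonpos_of_nonpos_of_neg_pi_le
        (not_lt.1 fun h' => h ⟨h', hφ.2⟩) hφ.1.le))
  · refine (hI.mul_prod (g := (Icc (0 : ℝ) 1).indicator 1) ((integrable_indicator_iff
      measurableSet_Icc).2 (integrableOn_const (by simp)))).mono' (Measurable.aestronglyMeasurable ?_)
      (.of_forall fun p => ?_)
    · exact ((measurable_snd.pow_const (3 - 1)).smul hm).indicator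
        (measurableSet_Ioi.preimage measurable_snd)
    · by_cases h : p.2 ∈ Ioi (0 : ℝ)
      · rw [indicator_of_mem h, norm_smul]
        refine le_trans ?_ (hb p.1 p.2 (le_of_lt h))
        by_cases h' : √(p.1 ^ 2 + p.2 ^ 2) < 1
        · have h2 := (sqrt_lt' one_pos).1 h'
          refine mul_le_of_le_one_left (norm_nonneg _) ?_
          rw [norm_of_nonneg (sq_nonneg _)]
          nlinarith [sq_nonneg p.1]
        · simp [χ, h']
      · rw [indicator_of_notMem h, norm_zero]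
        exact mul_nonneg (indicator_nonneg (fun _ _ => (abs_nonneg _).trans (hC 0)) _)
          (indicator_nonneg (by simp) _)

lemma gud (f : ℝ → ℝ) : ∫ φ in Ioo 0 π, sin φ ^ 2 * f (cos φ) =
    ∫ s, f (tanh s) / cosh s ^ 3 := by
  have hi : (fun s => π / 2 - arctan (sinh s)) '' univ = Ioo 0 π := by
    ext φ
    constructor
    · rintro ⟨s, -, rfl⟩
      exact ⟨by linarith [arctan_lt_pi_div_two (sinh s)],
        by linarith [neg_pi_div_two_lt_arctan (sinh s)]⟩
    · intro h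
      refine ⟨arsinh (tan (π / 2 - φ)), trivial, ?_⟩
      simp only [sinh_arsinh]
      rw [arctan_tan (by linarith [h.2]) (by linarith [h.1])]
      ring
  have hc : ∀ s, √(1 + sinh s ^ 2) = cosh s := fun s => by
    rw [add_comm, ← cosh_sq, sqrt_sq (cosh_pos s).le]
  rw [← hi, integral_image_eq_integral_abs_deriv_smul MeasurableSet.univ
    (f' := fun s => -(1 / (1 + sinh s ^ 2) * cosh s))
    (fun s _ => (((hasDerivAt_sinh s).arctan).const_sub _).hasDerivWithinAt)
    (fun a _ b _ h => sinh_injective (arctan_injective (by simpa using h))), Measure.restrict_univ]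
  refine integral_congr_ae (.of_forall fun s => ?_)
  have := cosh_pos s
  simp only [sin_pi_div_two_sub, cos_pi_div_two_sub, cos_arctan, sin_arctan, hc, smul_eq_mul,
    ← tanh_eq_sinh_div_cosh]
  rw [abs_neg, abs_of_pos (by positivity), add_comm, ← cosh_sq]
  field_simp

lemma sph (x : sphere (0 : E) 1) : |x.1 0| ≤ 1 :=
  (PiLp.norm_apply_le x.1 0).trans_eq (by simp)

lemma zon : ∃ κ > 0, σ.real univ = κ * (π / 2) ∧ ∀ (G : ℝ → ℝ), ContinuousOn G (Icc (-1) 1) →
    ∫ x, G (x.1 0) ∂σ = κ * ∫ s, G (tanh s) / cosh s ^ 3 := by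
  obtain ⟨κ, h⟩ := zon0
  have h1 := h (fun _ => 1) 1 measurable_const (by simp)
  simp only [integral_const, smul_eq_mul, mul_one] at h1
  rw [← integral_Ioc_eq_integral_Ioo, ← intervalIntegral.integral_of_le pi_pos.le,
    integral_sin_sq] at h1
  have h2 : σ.real univ = κ * (π / 2) := by simpa using h1
  have h3 : 0 < σ.real univ := by
    rw [σ, Measure.toSphere_real_apply_univ]
    exact mul_pos (by simp) (ENNReal.toReal_pos (measure_ball_pos _ _ one_pos).ne'
      measure_ball_lt_top.ne)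
  refine ⟨κ, by nlinarith [pi_pos], h2, fun G hG => ?_⟩
  have hm : ∀ z : ℝ, max (-1) (min 1 z) ∈ Icc (-1 : ℝ) 1 := fun z =>
    ⟨le_max_left _ _, max_le (by norm_num) (min_le_left _ _)⟩
  have he : ∀ z : ℝ, |z| ≤ 1 → max (-1) (min 1 z) = z := fun z hz => by
    rw [min_eq_right (abs_le.1 hz).2, max_eq_right (abs_le.1 hz).1]
  obtain ⟨C, hC⟩ := isCompact_Icc.exists_bound_of_continuousOn hG
  have h4 := h (fun z => G (max (-1) (min 1 z))) C
    (hG.comp_continuous (by fun_prop) hm).measurable fun z => hC _ (hm z)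
  rw [gud fun z => G (max (-1) (min 1 z))] at h4
  simp only [he _ (abs_tanh_lt_one _).le] at h4
  rw [← h4]
  refine integral_congr_ae (.of_forall fun x => ?_)
  simp only [he _ (sph x)]

end Pool.Agent.H.MP_4a15bf_mp
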