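import Mathlib

open Filter Topology Set Real Finset

namespace Pool.Agent.H.MP_4a15bf_mp

lemma sN {a : ℝ} (ha : 0 < a) : Summable fun n : ℕ => exp (-a * (n : ℝ) ^ 2) :=
  (summable_exp_nat_mul_iff.2 (neg_neg_of_pos ha)).of_nonneg_of_le (fun _ => (exp_pos _).le)
    fun n => exp_le_exp.2 (by
      have : (n : ℝ) ≤ n ^ 2 := by exact_mod_cast Nat.le_self_pow two_ne_zero n
      nlinarith)

lemma sN' {a : ℝ} (ha : 0 < a) : Summable fun n : ℕ => exp (-a * ((n : ℝ) + 1) ^ 2) := by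
  simpa using (summable_nat_add_iff 1).2 (sN ha)

lemma zn {a : ℝ} (ha : 0 < a) : ∑' n : ℤ, exp (-a * (n : ℝ) ^ 2) =
    1 + 2 * ∑' n : ℕ, exp (-a * ((n : ℝ) + 1) ^ 2) := by
  rw [tsum_of_nat_of_neg_add_one (by simpa using sN ha) (by
    simpa only [Int.cast_neg, neg_sq, Int.cast_add, Int.cast_natCast, Int.cast_one] using sN' ha)]
  simp only [Int.cast_neg, neg_sq, Int.cast_add, Int.cast_natCast, Int.cast_one]
  rw [(sN ha).tsum_eq_zero_add]
  simp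
  ring

lemma poisson {u : ℝ} (hu : 0 < u) : 1 + 2 * ∑' n : ℕ, exp (-u ^ 2 * ((n : ℝ) + 1) ^ 2) =
    √π / u * (1 + 2 * ∑' n : ℕ, exp (-(π ^ 2 / u ^ 2) * ((n : ℝ) + 1) ^ 2)) := by
  have h := tsum_exp_neg_mul_int_sq (a := u ^ 2 / π) (by positivity)
  rw [show -π * (u ^ 2 / π) = -u ^ 2 by field_simp, show -π / (u ^ 2 / π) = -(π ^ 2 / u ^ 2) by
    field_simp, zn (by positivity), zn (by positivity), ← sqrt_eq_rpow, sqrt_div (by positivity),
    sqrt_sq hu.le, one_div_div] at h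
  exact h

lemma small {u : ℝ} (hu : 0 < u) (h : u ^ 2 ≤ 3 / 2) (n : ℕ) :
    u ^ 3 * ∑ k ∈ range n, ((k : ℝ) + 1) ^ 2 * exp (-u ^ 2 * ((k : ℝ) + 1) ^ 2) ≤
      √π * (2504 / 10000) := by
  set ρ : ℝ := 999 / 1000
  have hρ : 0 < ρ * u := by positivity
  have h1 : (1 - ρ ^ 2) * u ^ 2 * ∑ k ∈ range n, ((k : ℝ) + 1) ^ 2 * exp (-u ^ 2 * ((k : ℝ) + 1) ^ 2)
      ≤ ∑' n : ℕ, exp (-(ρ * u) ^ 2 * ((n : ℝ) + 1) ^ 2) -
        ∑' n : ℕ, exp (-u ^ 2 * ((n : ℝ) + 1) ^ 2) := by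
    have key : ∀ k : ℕ, (1 - ρ ^ 2) * u ^ 2 * (((k : ℝ) + 1) ^ 2 * exp (-u ^ 2 * ((k : ℝ) + 1) ^ 2)) ≤
        exp (-(ρ * u) ^ 2 * ((k : ℝ) + 1) ^ 2) - exp (-u ^ 2 * ((k : ℝ) + 1) ^ 2) := fun k => by
      rw [show -(ρ * u) ^ 2 * ((k : ℝ) + 1) ^ 2 = (1 - ρ ^ 2) * u ^ 2 * ((k : ℝ) + 1) ^ 2 +
        -u ^ 2 * ((k : ℝ) + 1) ^ 2 by ring, exp_add]
      nlinarith [add_one_le_exp ((1 - ρ ^ 2) * u ^ 2 * ((k : ℝ) + 1) ^ 2),
        exp_pos (-u ^ 2 * ((k : ℝ) + 1) ^ 2)]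
    rw [← (sN' (by positivity)).tsum_sub (sN' (by positivity)), mul_sum]
    exact (sum_le_sum fun k _ => key k).trans (((sN' (by positivity)).sub
      (sN' (by positivity))).sum_le_tsum _ fun k _ => le_trans (by norm_num [ρ]; positivity) (key k))
  have h2 : ∑' n : ℕ, exp (-(π ^ 2 / (ρ * u) ^ 2) * ((n : ℝ) + 1) ^ 2) ≤
      ρ * ∑' n : ℕ, exp (-(π ^ 2 / u ^ 2) * ((n : ℝ) + 1) ^ 2) := by
    rw [← tsum_mul_left]
    refine (sN' (by positivity)).tsum_le_tsum (fun k => ?_) ((sN' (by positivity)).mul_left _)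
    have h3 : 1 ≤ π ^ 2 / u ^ 2 * ((k : ℝ) + 1) ^ 2 := by
      refine one_le_mul_of_one_le_of_one_le ((one_le_div (by positivity)).2 ?_)
        (one_le_pow₀ (by simp))
      nlinarith [pi_gt_three]
    rw [show -(π ^ 2 / (ρ * u) ^ 2) * ((k : ℝ) + 1) ^ 2 = -((1 / ρ ^ 2 - 1) * (π ^ 2 / u ^ 2 *
      ((k : ℝ) + 1) ^ 2)) + -(π ^ 2 / u ^ 2) * ((k : ℝ) + 1) ^ 2 by field_simp; ring, exp_add]
    gcongr
    rw [exp_neg, inv_le_comm₀ (exp_pos _) (by norm_num [ρ])]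
    refine le_trans ?_ (add_one_le_exp _)
    norm_num [ρ]
    linarith
  have p1 := poisson hu
  have p2 := poisson hρ
  generalize ∑' n : ℕ, exp (-(π ^ 2 / (ρ * u) ^ 2) * ((n : ℝ) + 1) ^ 2) = A at *
  generalize ∑' n : ℕ, exp (-(π ^ 2 / u ^ 2) * ((n : ℝ) + 1) ^ 2) = B at *
  generalize ∑' n : ℕ, exp (-(ρ * u) ^ 2 * ((n : ℝ) + 1) ^ 2) = C at *
  generalize ∑' n : ℕ, exp (-u ^ 2 * ((n : ℝ) + 1) ^ 2) = D at *
  generalize ∑ k ∈ range n, ((k : ℝ) + 1) ^ 2 * exp (-u ^ 2 * ((k : ℝ) + 1) ^ 2) = S at *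
  have h4 : √π / (ρ * u) * (1 + 2 * A) ≤ √π / (ρ * u) * (1 + 2 * (ρ * B)) := by gcongr
  have h5 : (1 - ρ ^ 2) * u ^ 2 * S ≤ √π / u * (1 / ρ - 1) / 2 := by
    have : √π / (ρ * u) * (1 + 2 * (ρ * B)) - √π / u * (1 + 2 * B) = √π / u * (1 / ρ - 1) := by
      field_simp; ring
    rw [← p1, sub_eq_iff_eq_add] at this
    rw [← p2, this] at h4
    refine h1.trans ?_
    generalize √π / u * (1 / ρ - 1) = Y at h4
    linarith
  rw [div_mul_eq_mul_div, div_div, le_div_iff₀ (by positivity)] at h5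
  norm_num [ρ] at h5 ⊢
  nlinarith [sqrt_nonneg π]

lemma ex {x b : ℝ} (hx : 0 ≤ x) (n : ℕ) (hb : 0 < b)
    (h : b⁻¹ ≤ ∑ i ∈ range n, x ^ i / i.factorial) : exp (-x) ≤ b := by
  rw [exp_neg, inv_le_comm₀ (exp_pos _) hb]
  exact h.trans (sum_le_exp_of_nonneg hx n)

lemma sqpi : √π ≤ 1.7725 ∧ 1.7724 ≤ √π :=
  ⟨sqrt_le_iff.2 ⟨by norm_num, by linarith [pi_lt_d4]⟩, le_sqrt_of_sq_le (by linarith [pi_gt_d4])⟩

lemma rhs {t : ℝ} (ht : 0 < t) (n : ℕ) : t ^ (3 / 2 : ℝ) *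
    ∑ k ∈ range n, ((k : ℝ) + 1) ^ 2 * exp (-t * (k * (k + 2) + 3 / 4)) ≤ 0.65 := by
  obtain ⟨u, hu, rfl⟩ : ∃ u : ℝ, 0 < u ∧ t = u ^ 2 := ⟨√t, sqrt_pos.2 ht, (sq_sqrt ht.le).symm⟩
  rw [← rpow_natCast, ← rpow_mul hu.le, show ((2 : ℕ) : ℝ) * (3 / 2) = (3 : ℕ) by norm_num,
    rpow_natCast, rpow_natCast]
  rcases le_total (u ^ 2) (3 / 2) with h | h
  · have e : ∀ k : ℕ, ((k : ℝ) + 1) ^ 2 * exp (-u ^ 2 * (k * (k + 2) + 3 / 4)) =
        exp (u ^ 2 / 4) * (((k : ℝ) + 1) ^ 2 * exp (-u ^ 2 * ((k : ℝ) + 1) ^ 2)) := fun k => by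
      rw [mul_left_comm, ← exp_add]; congr 2; ring
    have h1 : exp (u ^ 2 / 4) ≤ 1.46 := (exp_le_exp.2 (show _ ≤ 3 / 8 by linarith)).trans
      ((exp_bound' (by norm_num) (by norm_num) (n := 4) (by norm_num)).trans (by
        norm_num [sum_range_succ, Nat.factorial]))
    simp only [e, ← mul_sum]
    rw [mul_left_comm]
    refine (mul_le_mul h1 (small hu h n) (by positivity) (by norm_num)).trans ?_
    linarith [sqpi.1]
  · have h1 : ∑ k ∈ range n, ((k : ℝ) + 1) ^ 2 * exp (-u ^ 2 * (k * (k + 2) + 3 / 4)) ≤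
        exp (-(3 / 4 * u ^ 2)) * (1 + 4.05 * exp (-(3 * u ^ 2))) := by
      refine (sum_le_sum_of_subset_of_nonneg (range_subset_range.2 n.le_succ)
        fun _ _ _ => by positivity).trans ?_
      rw [sum_range_succ', add_comm, mul_add (exp _)]
      refine add_le_add (le_of_eq ?_) ?_
      · norm_num [mul_comm]
      have h5 : exp (-5) ≤ 1 / 100 := ex (by norm_num) 8 (by norm_num)
        (by norm_num [sum_range_succ, Nat.factorial])
      calc _ ≤ ∑ k ∈ range n, exp (-(3 / 4 * u ^ 2)) * (4 * exp (-(3 * u ^ 2))) * (1 / 100) ^ k := by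
            refine sum_le_sum fun k _ => le_trans ?_ (mul_le_mul_of_nonneg_left
              (pow_le_pow_left₀ (exp_pos _).le h5 k) (by positivity))
            have h6 : (((k + 1 : ℕ) : ℝ) + 1) ^ 2 ≤ 4 * exp k := by
              have := pow_le_pow_left₀ (by positivity) (add_one_le_exp ((k : ℝ) / 2)) 2
              rw [← exp_nat_mul] at this
              push_cast at this ⊢
              rw [show (2 : ℝ) * (k / 2) = k by ring] at this
              linarith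
            refine (mul_le_mul_of_nonneg_right h6 (exp_pos _).le).trans ?_
            rw [mul_left_comm, mul_assoc, mul_assoc, ← exp_nat_mul, ← exp_add, ← exp_add, ← exp_add]
            refine mul_le_mul_of_nonneg_left (exp_le_exp.2 ?_) (by norm_num)
            push_cast
            have : (0 : ℝ) ≤ k := k.cast_nonneg
            nlinarith [mul_le_mul_of_nonneg_right h this, mul_nonneg (sq_nonneg u) (sq_nonneg (k : ℝ))]
        _ ≤ _ := by
            rw [← mul_sum, mul_assoc]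
            refine mul_le_mul_of_nonneg_left ?_ (exp_pos _).le
            have := (summable_geometric_of_lt_one (r := 1 / 100) (by norm_num)
              (by norm_num)).sum_le_tsum (range n) fun _ _ => by positivity
            rw [tsum_geometric_of_lt_one (by norm_num) (by norm_num)] at this
            nlinarith [exp_pos (-(3 * u ^ 2))]
    refine (mul_le_mul_of_nonneg_left h1 (by positivity)).trans ?_
    have h2 : ∀ {b c : ℝ}, 0 ≤ c → u ^ 2 * exp (-(u ^ 2 / 2)) ≤ b → b ^ 3 ≤ c ^ 2 →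
        u ^ 3 * exp (-(3 / 4 * u ^ 2)) ≤ c := fun {b c} hc h3 h4 => by
      refine (pow_le_pow_iff_left₀ (by positivity) hc two_ne_zero).1 (le_trans ?_ h4)
      refine le_trans (le_of_eq ?_) (pow_le_pow_left₀ (by positivity) h3 3)
      rw [mul_pow, mul_pow, ← exp_nat_mul, ← exp_nat_mul, ← pow_mul, ← pow_mul]
      congr 2; push_cast; ring
    rw [← mul_assoc]
    rcases le_total (u ^ 2) 1.7 with h' | h'
    · have h3 : exp (-(3 * u ^ 2)) ≤ 0.0115 := (exp_le_exp.2 (show _ ≤ -4.5 by linarith)).trans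
        (ex (by norm_num) 12 (by norm_num) (by norm_num [sum_range_succ, Nat.factorial]))
      have h4 : u ^ 2 * exp (-(u ^ 2 / 2)) ≤ 1.7 * 0.4275 := by
        have e1 : exp (-0.85) ≤ 0.4275 :=
          ex (by norm_num) 7 (by norm_num) (by norm_num [sum_range_succ, Nat.factorial])
        rw [show -(u ^ 2 / 2) = -0.85 - (u ^ 2 - 1.7) / 2 by ring, exp_sub, ← mul_div_assoc,
          div_le_iff₀ (exp_pos _)]
        nlinarith [add_one_le_exp ((u ^ 2 - 1.7) / 2), exp_pos (-0.85)]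
      have := h2 (c := 0.62) (by norm_num) h4 (by norm_num)
      nlinarith [exp_pos (-(3 * u ^ 2))]
    · have h3 : exp (-(3 * u ^ 2)) ≤ 0.007 := (exp_le_exp.2 (show _ ≤ -5.1 by linarith)).trans
        (ex (by norm_num) 12 (by norm_num) (by norm_num [sum_range_succ, Nat.factorial]))
      have h4 : u ^ 2 * exp (-(u ^ 2 / 2)) ≤ 2 * 0.368 := by
        have e1 : exp (-1) ≤ 0.368 :=
          ex (by norm_num) 7 (by norm_num) (by norm_num [sum_range_succ, Nat.factorial])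
        rw [show -(u ^ 2 / 2) = -1 - (u ^ 2 - 2) / 2 by ring, exp_sub, ← mul_div_assoc,
          div_le_iff₀ (exp_pos _)]
        nlinarith [add_one_le_exp ((u ^ 2 - 2) / 2), exp_pos (-1)]
      have := h2 (c := 0.6315) (by norm_num) h4 (by norm_num)
      nlinarith [exp_pos (-(3 * u ^ 2))]

end Pool.Agent.H.MP_4a15bf_mp
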