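import Pool.Agent.H.MP_4a15bf_mp.A

open Filter Topology MeasureTheory Set Real Metric

namespace Pool.Agent.H.MP_4a15bf_mp

lemma icos (j : ℤ) : ∫ θ in (0 : ℝ)..π, cos (j * θ) = if j = 0 then π else 0 := by
  split_ifs with h
  · simp [h]
  · rw [intervalIntegral.integral_comp_mul_left (fun x => cos x) (Int.cast_ne_zero.2 h)]
    simp

lemma orth (m n : ℕ) : (∫ θ in (0 : ℝ)..π, cos (m * θ) * cos (n * θ)) =
      (if m = n then (if m = 0 then π else π / 2) else 0) ∧
    (∫ θ in (0 : ℝ)..π, sin (m * θ) * sin (n * θ)) =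
      (if m = n then (if m = 0 then 0 else π / 2) else 0) := by
  have h1 := icos (m - n)
  have h2 := icos (m + n)
  have i1 : IntervalIntegrable (fun θ => cos (((m - n : ℤ) : ℝ) * θ)) volume 0 π :=
    Continuous.intervalIntegrable (by fun_prop) _ _
  have i2 : IntervalIntegrable (fun θ => cos (((m + n : ℤ) : ℝ) * θ)) volume 0 π :=
    Continuous.intervalIntegrable (by fun_prop) _ _
  have e1 : ∀ θ : ℝ, cos (m * θ) * cos (n * θ) =
      (cos (((m - n : ℤ) : ℝ) * θ) + cos (((m + n : ℤ) : ℝ) * θ)) / 2 := fun θ => by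
    push_cast; rw [sub_mul, add_mul, cos_sub, cos_add]; ring
  have e2 : ∀ θ : ℝ, sin (m * θ) * sin (n * θ) =
      (cos (((m - n : ℤ) : ℝ) * θ) - cos (((m + n : ℤ) : ℝ) * θ)) / 2 := fun θ => by
    push_cast; rw [sub_mul, add_mul, cos_sub, cos_add]; ring
  simp only [e1, e2, intervalIntegral.integral_div]
  rw [intervalIntegral.integral_add i1 i2, intervalIntegral.integral_sub i1 i2, h1, h2]
  constructor <;> split_ifs <;> first | omega | ring

lemma sq_int {ι : Type} [Fintype ι] [DecidableEq ι] (b : ι → ℝ) {f : ι → ℝ → ℝ}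
    (hf : ∀ i, Continuous (f i)) (h : ∀ i j, i ≠ j → ∫ θ in (0 : ℝ)..π, f i θ * f j θ = 0) :
    ∫ θ in (0 : ℝ)..π, (∑ i, b i * f i θ) ^ 2 = ∑ i, b i ^ 2 * ∫ θ in (0 : ℝ)..π, f i θ * f i θ := by
  simp only [sq, Finset.sum_mul_sum]
  rw [intervalIntegral.integral_finsetSum fun i _ => Continuous.intervalIntegrable (by fun_prop) _ _]
  refine Finset.sum_congr rfl fun i _ => ?_
  rw [intervalIntegral.integral_finsetSum fun i _ => Continuous.intervalIntegrable (by fun_prop) _ _,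
    Finset.sum_eq_single i (fun j _ hj => ?_) (by simp)]
  · simp only [mul_mul_mul_comm (b i), intervalIntegral.integral_const_mul]
  · simp only [mul_mul_mul_comm (b i), intervalIntegral.integral_const_mul, h i j hj.symm, mul_zero]

lemma bern {ι : Type} [Fintype ι] [DecidableEq ι] (b : ι → ℝ) {m : ι → ℕ} (hm : m.Injective)
    {N : ℝ} (hN : ∀ i, (m i : ℝ) ≤ N) :
    ∫ θ in (0 : ℝ)..π, (∑ i, -(b i * m i) * sin (m i * θ)) ^ 2 ≤
      N ^ 2 * ∫ θ in (0 : ℝ)..π, (∑ i, b i * cos (m i * θ)) ^ 2 ∧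
    ∀ i, b i ≠ 0 → 0 < ∫ θ in (0 : ℝ)..π, (∑ i, b i * cos (m i * θ)) ^ 2 := by
  have h1 : ∀ i, π / 2 ≤ ∫ θ in (0 : ℝ)..π, cos (m i * θ) * cos (m i * θ) := fun i => by
    rw [(orth _ _).1]; split_ifs <;> first | contradiction | linarith [pi_pos]
  have h2 : ∀ i, ∫ θ in (0 : ℝ)..π, sin (m i * θ) * sin (m i * θ) ≤ π / 2 := fun i => by
    rw [(orth _ _).2]; split_ifs <;> first | contradiction | linarith [pi_pos]
  rw [sq_int (f := fun i θ => sin (m i * θ)) _ (by fun_prop) fun i j h => by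
    rw [(orth _ _).2, if_neg (hm.ne h)], sq_int (f := fun i θ => cos (m i * θ)) _ (by fun_prop)
    fun i j h => by rw [(orth _ _).1, if_neg (hm.ne h)], Finset.mul_sum]
  have := pi_pos
  refine ⟨Finset.sum_le_sum fun i _ => ?_, fun i hi => Finset.sum_pos' (fun i _ => mul_nonneg
    (sq_nonneg _) (by linarith [h1 i])) ⟨i, by simp, mul_pos (by positivity) (by linarith [h1 i])⟩⟩
  calc _ ≤ (-(b i * m i)) ^ 2 * (π / 2) := by gcongr; exact h2 i
    _ = (m i : ℝ) ^ 2 * (b i ^ 2 * (π / 2)) := by ring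
    _ ≤ _ := by gcongr; exacts [hN i, h1 i]

lemma dmin {f f' : ℝ → ℝ} (hf : ∀ x, HasDerivAt f (f' x) x) {b : ℝ} (hb : f' b = 0) (x : ℝ) :
    HasDerivAt (fun x => f (min b x)) (f' (min b x)) x := by
  rcases lt_trichotomy x b with h | rfl | h
  · rw [min_eq_right h.le]
    exact (hf x).congr_of_eventuallyEq
      (mem_of_superset (Iio_mem_nhds h) fun y hy => by simp [min_eq_right (mem_Iio.1 hy).le])
  · rw [← hasDerivWithinAt_univ, ← Iic_union_Ici (a := x), min_self]
    refine ((hf x).hasDerivWithinAt.congr (fun y hy => by simp only [min_eq_right (mem_Iic.1 hy)])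
      (by simp)).union ?_
    rw [hb]
    exact (hasDerivWithinAt_const x _ (f x)).congr
      (fun y hy => by simp only [min_eq_left (mem_Ici.1 hy)]) (by simp)
  · rw [min_eq_left h.le, hb]
    exact (hasDerivAt_const x (f b)).congr_of_eventuallyEq
      (mem_of_superset (Ioi_mem_nhds h) fun y hy => by simp [min_eq_left (mem_Ioi.1 hy).le])

lemma dmax {f f' : ℝ → ℝ} (hf : ∀ x, HasDerivAt f (f' x) x) {b : ℝ} (hb : f' b = 0) (x : ℝ) :
    HasDerivAt (fun x => f (max b x)) (f' (max b x)) x := by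
  have := (dmin (f := fun x => f (-x)) (f' := fun x => -f' (-x)) (b := -b)
    (fun x => by simpa using! (hf (-x)).comp x (hasDerivAt_neg x)) (by simpa) (-x)).comp x
    (hasDerivAt_neg x)
  simpa [Function.comp_def, min_neg_neg] using! this

/-- Dirichlet form of the conformal Laplacian `-Δ + 3/4` on `S³` (tangential gradient) -/
noncomputable def Q (u : E → ℝ) : ℝ :=
  ∫ x, (‖fderiv ℝ u x.1‖ ^ 2 - fderiv ℝ u x.1 x.1 ^ 2 + 3 / 4 * u x.1 ^ 2) ∂σ

/-- weighted squared norm -/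
noncomputable def M (W u : E → ℝ) : ℝ := ∫ x, W x.1 * u x.1 ^ 2 ∂σ

noncomputable def lift (v : ℝ → ℝ) : ℝ → ℝ :=
  (Ioo (-1) 1).indicator fun z => √(cosh (artanh z)) * v (artanh z)

lemma lift_tanh (v : ℝ → ℝ) (s : ℝ) : lift v (tanh s) = √(cosh s) * v s := by
  rw [lift, indicator_of_mem (show tanh s ∈ Ioo (-1 : ℝ) 1 from ⟨neg_one_lt_tanh s, tanh_lt_one s⟩),
    artanh_tanh]

lemma lift_cd {v : ℝ → ℝ} (hv : ContDiff ℝ 1 v) {l : ℝ} (h0 : ∀ s, l ≤ |s| → v s = 0) :
    ContDiff ℝ 1 (lift v) := by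
  refine contDiff_iff_contDiffAt.2 fun z => ?_
  by_cases hz : z ∈ Ioo (-1 : ℝ) 1
  · have h1 : ContDiffAt ℝ 1 artanh z := by
      have : 0 < (1 + z) / (1 - z) := div_pos (by linarith [hz.1]) (by linarith [hz.2])
      exact (ContDiffAt.sqrt ((contDiffAt_const.add contDiffAt_id).div
        (contDiffAt_const.sub contDiffAt_id) (sub_pos.2 hz.2).ne') this.ne').log
        (sqrt_pos.2 this).ne'
    exact ((h1.cosh.sqrt (cosh_pos _).ne').mul (hv.contDiffAt.comp z h1)).congr_of_eventuallyEq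
      (mem_of_superset (isOpen_Ioo.mem_nhds hz) fun y hy => indicator_of_mem hy _)
  · have h1 : tanh |l| < |z| := (tanh_lt_one _).trans_le (by
      by_contra h; exact hz (abs_lt.1 (not_le.1 h)))
    refine (contDiffAt_const (c := 0)).congr_of_eventuallyEq
      ((continuous_abs.continuousAt.eventually (lt_mem_nhds h1)).mono fun y hy => ?_)
    by_cases h : y ∈ Ioo (-1 : ℝ) 1
    · rw [lift, indicator_of_mem h, h0, mul_zero]
      refine (le_abs_self l).trans ?_
      rcases lt_abs.1 hy with h' | h'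
      · exact le_abs.2 (.inl (artanh_tanh |l| ▸ artanh_le_artanh (neg_one_lt_tanh _) h.2 h'.le))
      · refine le_abs.2 (.inr (le_neg.1 ?_))
        rw [← artanh_tanh (-|l|), tanh_neg]
        exact artanh_le_artanh h.1 (by linarith [neg_one_lt_tanh |l|]) (by linarith)
    · exact indicator_of_notMem h _

lemma dtanh (s : ℝ) : HasDerivAt tanh (1 / cosh s ^ 2) s := by
  have := (hasDerivAt_sinh s).fun_div (hasDerivAt_cosh s) (cosh_pos s).ne'
  simp only [← tanh_eq_sinh_div_cosh, ← sq, cosh_sq_sub_sinh_sq] at this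
  exact this

lemma ray {κ : ℝ} (hκ : ∀ (G : ℝ → ℝ), ContinuousOn G (Icc (-1) 1) →
    ∫ x, G (x.1 0) ∂σ = κ * ∫ s, G (tanh s) / cosh s ^ 3) {v v' : ℝ → ℝ}
    (hv : ∀ s, HasDerivAt v (v' s) s) (hc : Continuous v') {l : ℝ} (hl : 0 < l)
    (h0 : ∀ s, l ≤ |s| → v s = 0 ∧ v' s = 0) :
    Q (fun x => lift v (x 0)) = κ * ∫ s in -l..l, (v' s ^ 2 + 1 / 4 * v s ^ 2) := by
  have hd : deriv v = v' := funext fun s => (hv s).deriv
  have hv1 : ContDiff ℝ 1 v := contDiff_one_iff_deriv.2 ⟨fun s => (hv s).differentiableAt, hd ▸ hc⟩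
  have hF := lift_cd hv1 fun s hs => (h0 s hs).1
  have hF' := (contDiff_one_iff_deriv.1 hF).2
  have e1 : ∀ x : E, fderiv ℝ (fun x : E => lift v (x 0)) x =
      deriv (lift v) (x 0) • EuclideanSpace.proj 0 := fun x =>
    ((hF.differentiable one_ne_zero _).hasDerivAt.comp_hasFDerivAt x
      (EuclideanSpace.proj (𝕜 := ℝ) (0 : Fin 4)).hasFDerivAt).fderiv
  have e2 : ‖(EuclideanSpace.proj 0 : E →L[ℝ] ℝ)‖ = 1 := by
    rw [show (EuclideanSpace.proj 0 : E →L[ℝ] ℝ) = innerSL ℝ (EuclideanSpace.single 0 1) by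
      ext; simp [EuclideanSpace.inner_single_left]]
    simp
  have h1 := hκ (fun z => deriv (lift v) z ^ 2 * (1 - z ^ 2) + 3 / 4 * lift v z ^ 2)
    (by have := hF.continuous; fun_prop)
  rw [Q, integral_congr_ae (g := fun x => deriv (lift v) (x.1 0) ^ 2 * (1 - x.1 0 ^ 2) +
    3 / 4 * lift v (x.1 0) ^ 2) (.of_forall fun x => by simp [e1, norm_smul, e2]; ring), h1]
  congr 1
  have e3 : ∀ s, (deriv (lift v) (tanh s) ^ 2 * (1 - tanh s ^ 2) + 3 / 4 * lift v (tanh s) ^ 2) /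
      cosh s ^ 3 = v' s ^ 2 + 1 / 4 * v s ^ 2 +
      (1 / cosh s ^ 2 * v s ^ 2 + tanh s * (2 * v s * v' s)) / 2 := by
    intro s
    have hp := cosh_pos s
    have d1 := (hF.differentiable one_ne_zero _).hasDerivAt.comp s (dtanh s)
    simp only [Function.comp_def, lift_tanh] at d1
    have d2 := d1.unique (((hasDerivAt_cosh s).sqrt hp.ne').fun_mul (hv s))
    obtain ⟨r, hr, hr'⟩ : ∃ r, 0 < r ∧ cosh s = r ^ 2 := ⟨√_, sqrt_pos.2 hp, (sq_sqrt hp.le).symm⟩
    have h2 := cosh_sq s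
    rw [lift_tanh, (eq_div_iff (by positivity)).2 d2, show 1 - tanh s ^ 2 = 1 / cosh s ^ 2 by
      rw [tanh_eq_sinh_div_cosh]; field_simp; linarith, tanh_eq_sinh_div_cosh]
    rw [hr'] at h2 ⊢
    rw [sqrt_sq hr.le]
    field_simp
    linear_combination (-4 * v s ^ 2) * h2
  simp only [e3]
  have hvc := hv1.continuous
  have ht : Continuous tanh := continuous_iff_continuousAt.2 fun s => (dtanh s).continuousAt
  have hc2 : Continuous fun s => 1 / cosh s ^ 2 :=
    continuous_const.div (by fun_prop) fun s => by have := cosh_pos s; positivity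
  rw [← intervalIntegral.integral_eq_integral_of_support_subset (a := -l) (b := l) fun s hs => ?_,
    intervalIntegral.integral_add (Continuous.intervalIntegrable (by fun_prop) _ _)
    (Continuous.intervalIntegrable (by fun_prop) _ _), intervalIntegral.integral_div,
    intervalIntegral.integral_eq_sub_of_hasDerivAt (f := fun s => tanh s * v s ^ 2)
    (f' := fun s => 1 / cosh s ^ 2 * v s ^ 2 + tanh s * (2 * v s * v' s))
    (fun s _ => by simpa using! (dtanh s).fun_mul ((hv s).fun_pow 2))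
    (Continuous.intervalIntegrable (by fun_prop) _ _)]
  · simp [(h0 l (le_abs_self l)).1, (h0 (-l) (by simp [le_abs_self])).1]
  · by_contra h
    have := h0 s (by
      by_contra h'
      exact h (Ioo_subset_Ioc_self (abs_lt.1 (not_le.1 h'))))
    simp [this] at hs

end Pool.Agent.H.MP_4a15bf_mp
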