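import Pool.Agent.H.MP_4a15bf_mp.B
import Pool.Agent.H.MP_4a15bf_mp.C

open Filter Topology MeasureTheory Set Real Metric

namespace Pool.Agent.H.MP_4a15bf_mp

/-- the eigenvalue number `k = 0, 1, ...` of `W^(-1/2) Y W^(-1/2)`, by the min-max principle -/
noncomputable def eig (W : E → ℝ) (k : ℕ) : ℝ :=
  sInf {Λ | ∃ φ : Fin (k + 1) → E → ℝ, (∀ i, ContDiff ℝ 1 (φ i)) ∧ ∀ a : Fin (k + 1) → ℝ, a ≠ 0 →
    0 < M W (fun x => ∑ i, a i * φ i x) ∧
      Q (fun x => ∑ i, a i * φ i x) ≤ Λ * M W fun x => ∑ i, a i * φ i x}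

lemma Q0 (u : E → ℝ) : 0 ≤ Q u := integral_nonneg fun x => by
  have := (fderiv ℝ u x.1).le_opNorm x.1
  rw [norm_eq_of_mem_sphere x, mul_one, norm_eq_abs] at this
  have := sq_le_sq' (neg_le.1 ((neg_le_abs _).trans this)) ((le_abs_self _).trans this)
  simp only [Pi.zero_apply]
  nlinarith [sq_nonneg (u x.1)]

noncomputable def Wt (c η : ℝ) (x : E) : ℝ := c / (x 1 ^ 2 + x 2 ^ 2 + x 3 ^ 2 + η)

lemma Wt_eq (c η : ℝ) (x : sphere (0 : E) 1) : Wt c η x.1 = c / (1 - x.1 0 ^ 2 + η) := by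
  have := EuclideanSpace.real_norm_sq_eq x.1
  rw [norm_eq_of_mem_sphere x, Fin.sum_univ_four] at this
  rw [Wt]; congr 1; linarith

lemma tanh_sq (s : ℝ) : 1 - tanh s ^ 2 = 1 / cosh s ^ 2 := by
  have := cosh_pos s
  rw [tanh_eq_sinh_div_cosh]; field_simp; linarith [cosh_sq s]

lemma den {η z : ℝ} (hη : 0 < η) (hz : z ∈ Icc (-1 : ℝ) 1) : 0 < 1 - z ^ 2 + η := by
  nlinarith [hz.1, hz.2]

lemma mass {κ : ℝ} (hκ0 : 0 < κ) (hκ : ∀ (G : ℝ → ℝ), ContinuousOn G (Icc (-1) 1) →
    ∫ x, G (x.1 0) ∂σ = κ * ∫ s, G (tanh s) / cosh s ^ 3) {v : ℝ → ℝ} (hv : ContDiff ℝ 1 v)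
    {l c η b : ℝ} (hl : 0 < l) (hc : 0 < c) (hη : 0 < η) (hb : 1 + η * exp l ^ 2 ≤ b)
    (h0 : ∀ s, l ≤ |s| → v s = 0) :
    κ * (c / b * ∫ s in -l..l, v s ^ 2) ≤ M (Wt c η) (fun x => lift v (x 0)) := by
  have hF := (lift_cd hv h0).continuous
  have hvc := hv.continuous
  simp only [M, Wt_eq]
  rw [hκ (fun z => c / (1 - z ^ 2 + η) * lift v z ^ 2) (ContinuousOn.mul (continuousOn_const.div
    (by fun_prop) fun z hz => (den hη hz).ne') (by fun_prop))]
  have e : ∀ s, c / (1 - tanh s ^ 2 + η) * lift v (tanh s) ^ 2 / cosh s ^ 3 =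
      c / (1 + η * cosh s ^ 2) * v s ^ 2 := fun s => by
    have := cosh_pos s
    rw [tanh_sq, lift_tanh, mul_pow, sq_sqrt this.le]
    field_simp
  simp only [e]
  gcongr
  rw [← intervalIntegral.integral_eq_integral_of_support_subset (a := -l) (b := l) fun s hs => ?_,
    ← intervalIntegral.integral_const_mul]
  · refine intervalIntegral.integral_mono_on (by linarith) (Continuous.intervalIntegrable
      (by fun_prop) _ _) (Continuous.intervalIntegrable ((continuous_const.div (by fun_prop)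
      fun s => by positivity).mul (by fun_prop)) _ _) fun s hs => ?_
    have h1 : cosh s ≤ exp l := by
      rw [cosh_eq]
      linarith [exp_le_exp.2 hs.2, exp_le_exp.2 (neg_le.1 hs.1)]
    have := cosh_pos s
    gcongr
    refine le_trans ?_ hb
    gcongr
  · by_contra h
    have := h0 s (by
      by_contra h'
      exact h (Ioo_subset_Ioc_self (abs_lt.1 (not_le.1 h'))))
    simp [this] at hs

noncomputable def cl (h s : ℝ) : ℝ := max 0 (min π (h * s + π / 2))

noncomputable def ph (i : ℕ) (θ : ℝ) : ℝ :=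
  cos ((i + 2 : ℕ) * θ) - (1 + (-1) ^ i) / 2 - (1 - (-1) ^ i) / 2 * cos θ

lemma eig_le {κ : ℝ} (hκ0 : 0 < κ) (hκ : ∀ (G : ℝ → ℝ), ContinuousOn G (Icc (-1) 1) →
    ∫ x, G (x.1 0) ∂σ = κ * ∫ s, G (tanh s) / cosh s ^ 3)
    {l c η b : ℝ} (hl : 0 < l) (hc : 0 < c) (hη : 0 < η) (hb : 1 + η * exp l ^ 2 ≤ b) (k : ℕ) :
    eig (Wt c η) k ≤ b / c * (1 / 4 + (π / (2 * l)) ^ 2 * ((k : ℝ) + 2) ^ 2) := by
  set h := π / (2 * l) with hh
  have hp : 0 < h := by have := pi_pos; positivity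
  have hl' : h * l = π / 2 := by rw [hh]; field_simp
  have hb0 : 0 < b := lt_of_lt_of_le (by positivity) hb
  have key : ∀ {p p' : ℝ → ℝ}, (∀ θ, HasDerivAt p (p' θ) θ) → Continuous p' → p 0 = 0 → p π = 0 →
      p' 0 = 0 → p' π = 0 → (∀ s, HasDerivAt (fun s => p (cl h s)) (p' (cl h s) * h) s) ∧
      ContDiff ℝ 1 (fun s => p (cl h s)) ∧
      ∀ s, l ≤ |s| → p (cl h s) = 0 ∧ p' (cl h s) * h = 0 := by
    intro p p' hd hc' a0 a1 b0 b1
    have h1 : ∀ s, HasDerivAt (fun s => p (cl h s)) (p' (cl h s) * h) s := fun s => by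
      simpa [cl, Function.comp_def] using! (dmin (dmax hd b0) (by rwa [max_eq_right pi_pos.le])
        (h * s + π / 2)).comp s (((hasDerivAt_id s).const_mul h).add_const (π / 2))
    refine ⟨h1, contDiff_one_iff_deriv.2 ⟨fun s => (h1 s).differentiableAt, ?_⟩, fun s hs => ?_⟩
    · rw [show deriv _ = _ from funext fun s => (h1 s).deriv]
      unfold cl; fun_prop
    · rcases le_abs.1 hs with h2 | h2
      · rw [cl, min_eq_left (by nlinarith), max_eq_right pi_pos.le, a1, b1, zero_mul]; simp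
      · rw [cl, max_eq_left (min_le_of_right_le (by nlinarith)), a0, b0, zero_mul]; simp
  have chg : ∀ f : ℝ → ℝ, ∫ s in -l..l, f (cl h s) = h⁻¹ * ∫ θ in (0 : ℝ)..π, f θ := fun f => by
    rw [intervalIntegral.integral_congr (g := fun s => f (h * s + π / 2)) fun s hs => ?_,
      intervalIntegral.integral_comp_mul_add _ hp.ne', mul_neg, hl']
    · simp
    · rw [uIcc_of_le (by linarith)] at hs
      simp only [cl]
      rw [min_eq_right (by nlinarith [hs.2]), max_eq_right (by nlinarith [hs.1])]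
  refine csInf_le ⟨0, fun Λ ⟨φ, _, H⟩ => ?_⟩ ⟨fun i x => lift (fun s => ph i (cl h s)) (x 0),
    fun i => ?_, fun a ha => ?_⟩
  · obtain ⟨h1, h2⟩ := H 1 one_ne_zero
    exact nonneg_of_mul_nonneg_left ((Q0 _).trans h2) h1
  · have := key (p := ph i) (p' := fun θ => -sin ((i + 2 : ℕ) * θ) * (i + 2 : ℕ) -
      (1 - (-1) ^ (i : ℕ)) / 2 * -sin θ) (fun θ => by
        simpa only [id, mul_one] using! (((hasDerivAt_id θ).const_mul ((i + 2 : ℕ) : ℝ)).cos.sub_const
          _).sub ((hasDerivAt_cos θ).const_mul _)) (by fun_prop)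
      (by simp [ph]; ring) (by simp [ph, add_mul, cos_nat_mul_pi]; ring) (by simp)
      (by rw [sin_nat_mul_pi]; simp)
    exact (lift_cd this.2.1 fun s hs => (this.2.2 s hs).1).comp (by fun_prop)
  · set β : Fin (k + 1) ⊕ Fin 2 → ℝ := Sum.elim a
      ![-∑ i, a i * ((1 + (-1) ^ (i : ℕ)) / 2), -∑ i, a i * ((1 - (-1) ^ (i : ℕ)) / 2)]
    set m : Fin (k + 1) ⊕ Fin 2 → ℕ := Sum.elim (fun i => i + 2) fun j => j
    have hp' : ∀ θ, ∑ i, a i * ph i θ = ∑ j, β j * cos (m j * θ) := fun θ => by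
      simp [β, m, ph, mul_sub, Finset.sum_sub_distrib, Finset.sum_mul, mul_assoc]
      ring
    have hm : m.Injective := by
      rintro (i | i) (j | j) e <;> simp only [m, Sum.elim_inl, Sum.elim_inr] at e <;>
        first | omega | (congr 1; omega)
    obtain ⟨B1, B2⟩ := bern β hm (N := k + 2) (by
      rintro (i | i) <;> simp only [m, Sum.elim_inl, Sum.elim_inr] <;> norm_cast <;> omega)
    obtain ⟨i, hi⟩ := Function.ne_iff.1 ha
    replace B2 := B2 (.inl i) hi
    obtain ⟨k1, k2, k3⟩ := key (p := fun θ => ∑ j, β j * cos (m j * θ))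
      (p' := fun θ => ∑ j, -(β j * m j) * sin (m j * θ)) (fun θ => .fun_sum fun j _ => by
        simpa [mul_comm, mul_left_comm, mul_assoc] using!
          (((hasDerivAt_id θ).const_mul (m j : ℝ)).cos).const_mul (β j)) (by fun_prop)
      (by rw [← hp']; exact Finset.sum_eq_zero fun i _ => by simp [ph]; right; ring)
      (by rw [← hp']; exact Finset.sum_eq_zero fun i _ => by
            simp [ph, add_mul, cos_nat_mul_pi]; right; ring) (by simp) (by simp)
    have e : (fun x : E => ∑ i, a i * lift (fun s => ph i (cl h s)) (x 0)) =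
        fun x => lift (fun s => ∑ j, β j * cos (m j * cl h s)) (x 0) := by
      ext x
      simp only [lift, indicator, ← hp', Finset.mul_sum, mul_left_comm]
      split_ifs <;> simp
    have r1 := ray hκ k1 (by unfold cl; fun_prop) hl k3
    have r2 := mass hκ0 hκ k2 hl hc hη hb fun s hs => (k3 s hs).1
    rw [chg fun θ => ((∑ j, -(β j * m j) * sin (m j * θ)) * h) ^ 2 +
      1 / 4 * (∑ j, β j * cos (m j * θ)) ^ 2, intervalIntegral.integral_add
      (Continuous.intervalIntegrable (by fun_prop) _ _)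
      (Continuous.intervalIntegrable (by fun_prop) _ _), intervalIntegral.integral_const_mul] at r1
    simp only [mul_pow, intervalIntegral.integral_mul_const] at r1
    rw [chg fun θ => (∑ j, β j * cos (m j * θ)) ^ 2] at r2
    rw [e, r1]
    refine ⟨lt_of_lt_of_le (by positivity) r2, le_trans ?_ (mul_le_mul_of_nonneg_left r2
      (by positivity))⟩
    generalize ∫ θ in (0 : ℝ)..π, (∑ j, β j * cos (m j * θ)) ^ 2 = A at *
    generalize ∫ θ in (0 : ℝ)..π, (∑ j, -(β j * m j) * sin (m j * θ)) ^ 2 = B at *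
    calc _ ≤ κ * (h⁻¹ * (((k : ℝ) + 2) ^ 2 * A * h ^ 2 + 1 / 4 * A)) := by gcongr
      _ = _ := by field_simp; ring

lemma norm_le {κ : ℝ} (hκ0 : 0 < κ) (hκ : ∀ (G : ℝ → ℝ), ContinuousOn G (Icc (-1) 1) →
    ∫ x, G (x.1 0) ∂σ = κ * ∫ s, G (tanh s) / cosh s ^ 3) {L : ℝ} (hL : 0 ≤ L) :
    ∫ x, Wt 1 (4 * exp (-L) ^ 2) x.1 ^ (3 / 2 : ℝ) ∂σ ≤ κ * (2 * (L + 1)) := by
  set η := 4 * exp (-L) ^ 2
  have hη : 0 < η := by positivity
  simp only [Wt_eq]
  rw [hκ (fun z => (1 / (1 - z ^ 2 + η)) ^ (3 / 2 : ℝ)) ((continuousOn_const.div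
    (by fun_prop) fun z hz => (den hη hz).ne').rpow_const fun _ _ => .inr (by norm_num))]
  have e : ∀ s, (1 / (1 - tanh s ^ 2 + η)) ^ (3 / 2 : ℝ) / cosh s ^ 3 =
      (1 / (1 + η * cosh |s| ^ 2)) ^ (3 / 2 : ℝ) := fun s => by
    have := cosh_pos s
    rw [tanh_sq, cosh_abs, show 1 / (1 / cosh s ^ 2 + η) = cosh s ^ (2 : ℝ) *
      (1 / (1 + η * cosh s ^ 2)) by rw [rpow_two]; field_simp, mul_rpow (by positivity)
      (by positivity), ← rpow_mul this.le, show (2 : ℝ) * (3 / 2) = (3 : ℕ) by norm_num,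
      rpow_natCast, mul_div_cancel_left₀ _ (by positivity)]
  simp only [e]
  rw [integral_comp_abs (f := fun s => (1 / (1 + η * cosh s ^ 2)) ^ (3 / 2 : ℝ))]
  gcongr
  have hd : ∀ s ∈ Ici (0 : ℝ), HasDerivAt (fun s => -log (1 + exp (2 * (L - s))) / 2)
      (exp (2 * (L - s)) / (1 + exp (2 * (L - s)))) s := fun s _ => by
    convert! ((((((hasDerivAt_id s).const_sub L).const_mul 2).exp.const_add 1).log
      (by positivity)).neg.div_const 2) using 1
    simp; ring
  have ht : Tendsto (fun s => -log (1 + exp (2 * (L - s))) / 2) atTop (𝓝 0) := by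
    have : Tendsto (fun s => exp (2 * (L - s))) atTop (𝓝 0) := tendsto_exp_atBot.comp
      ((tendsto_atBot_add_const_left _ L tendsto_neg_atTop_atBot).const_mul_atBot two_pos)
    simpa using ((this.const_add 1).log (by simp)).neg.div_const 2
  refine (integral_mono_of_nonneg (.of_forall fun s => by positivity)
    (integrableOn_Ioi_deriv_of_nonneg' hd (fun _ _ => by positivity) ht)
    (.of_forall fun s => ?_)).trans ?_
  · have := cosh_pos s
    refine (rpow_le_self_of_le_one (by positivity) ((div_le_one (by positivity)).2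
      (le_add_of_nonneg_right (by positivity))) (by norm_num)).trans ?_
    rw [div_le_div_iff₀ (by positivity) (by positivity), one_mul, mul_add, mul_one, add_comm]
    gcongr
    have e1 : exp (2 * (L - s)) * (exp (-L) * exp s) ^ 2 = 1 := by
      rw [← exp_add, ← exp_nat_mul, ← exp_add]; simp; ring
    have e2 : exp s ≤ 2 * cosh s := by rw [cosh_eq]; linarith [exp_pos (-s)]
    rw [← e1, show η * cosh s ^ 2 = (exp (-L) * (2 * cosh s)) ^ 2 by simp only [η]; ring]
    gcongr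
  · rw [integral_Ioi_of_hasDerivAt_of_nonneg' hd (fun _ _ => by positivity) ht]
    have : log (1 + exp (2 * (L - 0))) ≤ 2 * L + 1 := by
      rw [log_le_iff_le_exp (by positivity), exp_add, sub_zero]
      nlinarith [one_le_exp (show 0 ≤ 2 * L by linarith), add_one_le_exp 1]
    linarith

end Pool.Agent.H.MP_4a15bf_mp
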